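import Mathlib

/-!
# Superpolynomially many `k`-dominating independent sets in projective plane incidence graphs

For every `k ≥ 1` the incidence graphs of the planes `PG(2, 4^m)` have at least `2^(m²)`
`k`-dominating independent sets as soon as `2^(m-1) ≥ k`.
-/

set_option autoImplicit false

open scoped LinearAlgebra.Projectivization

namespace Pool.Agent.Results.MP_a51b5f_co.Superpolynomial

/-- `D` is a `k`-dominating independent set of `G`: every vertex outside `D` has at least `k`
neighbours in `D`, and `D` spans no edge. -/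
def IsKDIS {V : Type} (G : SimpleGraph V) (k : ℕ) (D : Set V) : Prop :=
  (∀ v ∉ D, k ≤ (G.neighborSet v ∩ D).ncard) ∧ ∀ u ∈ D, ∀ v ∈ D, ¬ G.Adj u v

/-- The number of `k`-dominating independent sets of `G`. -/
noncomputable def numKDIS {V : Type} (G : SimpleGraph V) (k : ℕ) : ℕ :=
  {D : Set V | IsKDIS G k D}.ncard

/-- The incidence graph on the disjoint union of the points and the lines. -/
def incGraph (P L : Type) [Membership P L] : SimpleGraph (P ⊕ L) where
  Adj
    | .inl p, .inr l => p ∈ l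
    | .inr l, .inl p => p ∈ l
    | _, _ => False
  symm := ⟨by
    rintro (p | l) (p' | l') h
    · exact h
    · exact h
    · exact h
    · exact h⟩
  loopless := ⟨by
    rintro (p | l) h
    · exact h
    · exact h⟩

/-- `n` is the number of vertices of the incidence graph of some finite projective plane. -/
def IsVertexCount (n : ℕ) : Prop :=
  ∃ (P L : Type) (_ : Finite P) (_ : Finite L) (_ : Membership P L)
    (_ : Configuration.ProjectivePlane P L), Nat.card (P ⊕ L) = n

/-- `mi_k(n, F)`: the largest number of `k`-DISes in an incidence graph with `n` vertices of a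
finite projective plane. -/
noncomputable def mi (k n : ℕ) : ℕ :=
  sSup {N | ∃ (P L : Type) (_ : Finite P) (_ : Finite L) (_ : Membership P L)
    (_ : Configuration.ProjectivePlane P L),
    Nat.card (P ⊕ L) = n ∧ numKDIS (incGraph P L) k = N}

/-! ### Linear algebra over the field with two elements -/

section linear

variable {F : Type} [Field F] [Finite F] [Algebra (ZMod 2) F]

/-- The `x ↦ (y ↦ φ (y x))` map. -/
def pairing (φ : F →ₗ[ZMod 2] ZMod 2) : F →ₗ[ZMod 2] (F →ₗ[ZMod 2] ZMod 2) where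
  toFun x := φ ∘ₗ LinearMap.mulRight (ZMod 2) x
  map_add' x y := by
    ext z
    simp [mul_add]
  map_smul' c x := by
    ext z
    simp

omit [Finite F] in
@[simp] lemma pairing_apply (φ : F →ₗ[ZMod 2] ZMod 2) (x y : F) : pairing φ x y = φ (y * x) := rfl

lemma pairing_surjective (φ : F →ₗ[ZMod 2] ZMod 2) (hφ : φ ≠ 0) :
    Function.Surjective (pairing φ) := by
  have hinj : Function.Injective (pairing φ) := by
    rw [← LinearMap.ker_eq_bot, LinearMap.ker_eq_bot']
    intro x hx
    by_contra hx0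
    apply hφ
    ext y
    have := LinearMap.congr_fun hx (y * x⁻¹)
    rw [pairing_apply, mul_assoc, inv_mul_cancel₀ hx0, mul_one] at this
    exact this
  exact (LinearMap.injective_iff_surjective_of_finrank_eq_finrank
    (Subspace.dual_finrank_eq (K := ZMod 2) (V := F)).symm).1 hinj

/-- The number of solutions of the linear system `φ (A u * x) = ψ u` for all `u ∈ U`. -/
lemma card_solutions (φ : F →ₗ[ZMod 2] ZMod 2) (hφ : φ ≠ 0) (U : Submodule (ZMod 2) F)
    (A : U →ₗ[ZMod 2] F) (ψ : U →ₗ[ZMod 2] ZMod 2) (h : LinearMap.ker A ≤ LinearMap.ker ψ) :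
    2 ^ (Module.finrank (ZMod 2) F - Module.finrank (ZMod 2) U) ≤
      {x : F | ∀ u : U, φ (A u * x) = ψ u}.ncard := by
  classical
  -- the map `x ↦ (u ↦ φ (A u * x))`
  set Φ : F →ₗ[ZMod 2] (U →ₗ[ZMod 2] ZMod 2) := A.dualMap ∘ₗ pairing φ with hΦ
  have hΦ_apply : ∀ x u, Φ x u = φ (A u * x) := fun x u => rfl
  -- a particular solution
  have hmem : ψ ∈ LinearMap.range A.dualMap := by
    rw [LinearMap.range_dualMap_eq_dualAnnihilator_ker]
    rw [Submodule.mem_dualAnnihilator]
    intro w hw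
    exact h hw
  obtain ⟨χ, hχ⟩ := hmem
  obtain ⟨x₀, hx₀⟩ := pairing_surjective φ hφ χ
  have hx₀' : Φ x₀ = ψ := by
    rw [hΦ, LinearMap.comp_apply, hx₀, hχ]
  have hrank : Module.finrank (ZMod 2) F - Module.finrank (ZMod 2) U ≤
      Module.finrank (ZMod 2) (LinearMap.ker Φ) := by
    have h1 := LinearMap.finrank_range_add_finrank_ker Φ
    have h2 := Submodule.finrank_le (LinearMap.range Φ)
    rw [Subspace.dual_finrank_eq] at h2
    omega
  have hcard : 2 ^ Module.finrank (ZMod 2) (LinearMap.ker Φ) = Nat.card (LinearMap.ker Φ) := by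
    have := Module.natCard_eq_pow_finrank (K := ZMod 2) (V := LinearMap.ker Φ)
    rw [this, Nat.card_zmod]
  calc 2 ^ (Module.finrank (ZMod 2) F - Module.finrank (ZMod 2) U)
      ≤ 2 ^ Module.finrank (ZMod 2) (LinearMap.ker Φ) := Nat.pow_le_pow_right (by norm_num) hrank
    _ = Nat.card (LinearMap.ker Φ) := hcard
    _ = (LinearMap.ker Φ : Set F).ncard := rfl
    _ ≤ {x : F | ∀ u : U, φ (A u * x) = ψ u}.ncard := by
        apply Set.ncard_le_ncard_of_injOn (fun x => x₀ + x)
        · intro x hx u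
          have h3 : Φ (x₀ + x) = ψ := by
            rw [map_add, hx₀', LinearMap.mem_ker.1 hx, add_zero]
          rw [← hΦ_apply, h3]
        · intro x _ y _ hxy
          exact add_left_cancel hxy

/-- A nonzero functional is nonzero on exactly half of the space. -/
lemma card_ne_zero {V : Type} [AddCommGroup V] [Module (ZMod 2) V] [Finite V]
    (ψ : V →ₗ[ZMod 2] ZMod 2) (hψ : ψ ≠ 0) :
    Nat.card V = 2 * {v : V | ψ v ≠ 0}.ncard := by
  classical
  obtain ⟨v₀, hv₀⟩ : ∃ v, ψ v ≠ 0 := by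
    by_contra hcon
    push Not at hcon
    exact hψ (LinearMap.ext hcon)
  have h01 : ∀ a : ZMod 2, a ≠ 0 → a = 1 := by decide
  have h1 : {v : V | ψ v ≠ 0}.ncard = {v : V | ψ v = 0}.ncard := by
    apply Set.ncard_congr (fun v _ => v₀ + v)
    · intro v hv
      simp only [Set.mem_ofPred_eq] at hv ⊢
      rw [map_add, h01 _ hv, h01 _ hv₀]
      decide
    · intro v w _ _ hvw
      exact add_left_cancel hvw
    · intro w hw
      simp only [Set.mem_ofPred_eq] at hw
      refine ⟨w - v₀, ?_, by abel⟩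
      simp only [Set.mem_ofPred_eq]
      rw [map_sub, hw, zero_sub]
      exact neg_ne_zero.2 hv₀
  have h2 : {v : V | ψ v ≠ 0}.ncard + {v : V | ψ v = 0}.ncard = Nat.card V := by
    rw [← Set.ncard_union_eq]
    · rw [← Set.ncard_univ]
      congr 1
      ext v
      simp only [Set.mem_union, Set.mem_ofPred_eq, Set.mem_univ, iff_true]
      tauto
    · rw [Set.disjoint_left]
      intro v hv hv'
      exact hv hv'
  omega

end linear

/-! ### Points and lines of `PG(2, q)` -/

section plane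

open Projectivization

variable {F : Type} [Field F]

lemma mk_mem_mk {v w : Fin 3 → F} (hv : v ≠ 0) (hw : w ≠ 0) :
    mk F v hv ∈ mk F w hw ↔ v ⬝ᵥ w = 0 := Iff.rfl

/-- The line `y = u x + t` (in characteristic two). -/
def line (u t : F) : ℙ F (Fin 3 → F) := mk F ![u, 1, t] (by simp)

/-- The line `x = c` (in characteristic two). -/
def vline (c : F) : ℙ F (Fin 3 → F) := mk F ![1, 0, c] (by simp)

/-- The line at infinity. -/
def iline : ℙ F (Fin 3 → F) := mk F ![0, 0, 1] (by simp)

/-- The affine point `(x, y)`. -/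
def pt (x y : F) : ℙ F (Fin 3 → F) := mk F ![x, y, 1] (by simp)

/-- The point at infinity of slope `s`. -/
def ipt (s : F) : ℙ F (Fin 3 → F) := mk F ![1, s, 0] (by simp)

/-- The point at infinity of the vertical lines. -/
def vpt : ℙ F (Fin 3 → F) := mk F ![0, 1, 0] (by simp)

lemma pt_mem_line (x y u t : F) : pt x y ∈ line u t ↔ x * u + y + t = 0 := by
  unfold pt line
  rw [mk_mem_mk]
  simp [dotProduct, Fin.sum_univ_three]

lemma pt_mem_vline (x y c : F) : pt x y ∈ vline c ↔ x + c = 0 := by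
  unfold pt vline
  rw [mk_mem_mk]
  simp [dotProduct, Fin.sum_univ_three]

lemma ipt_mem_line (s u t : F) : ipt s ∈ line u t ↔ u + s = 0 := by
  unfold ipt line
  rw [mk_mem_mk]
  simp [dotProduct, Fin.sum_univ_three]

lemma ipt_mem_iline (s : F) : ipt s ∈ (iline : ℙ F (Fin 3 → F)) := by
  unfold ipt iline
  rw [mk_mem_mk]
  simp [dotProduct, Fin.sum_univ_three]

lemma vpt_notMem_line (u t : F) : vpt ∉ line u t := by
  unfold vpt line
  rw [mk_mem_mk]
  simp [dotProduct, Fin.sum_univ_three]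

lemma point_cases (p : ℙ F (Fin 3 → F)) :
    (∃ x y, p = pt x y) ∨ (∃ s, p = ipt s) ∨ p = vpt := by
  induction p using Projectivization.ind with
  | h v hv =>
    by_cases h2 : v 2 = 0
    · by_cases h0 : v 0 = 0
      · right; right
        have h1 : v 1 ≠ 0 := by
          intro h1
          apply hv
          ext i
          fin_cases i
          · exact h0
          · exact h1
          · exact h2
        rw [vpt, mk_eq_mk_iff']
        refine ⟨v 1, ?_⟩
        ext i
        fin_cases i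
        · simp [h0]
        · simp
        · simp [h2]
      · right; left
        refine ⟨v 1 / v 0, ?_⟩
        rw [ipt, mk_eq_mk_iff']
        refine ⟨v 0, ?_⟩
        ext i
        fin_cases i
        · simp
        · simp [mul_div_cancel₀ _ h0]
        · simp [h2]
    · left
      refine ⟨v 0 / v 2, v 1 / v 2, ?_⟩
      rw [pt, mk_eq_mk_iff']
      refine ⟨v 2, ?_⟩
      ext i
      fin_cases i
      · simp [mul_div_cancel₀ _ h2]
      · simp [mul_div_cancel₀ _ h2]
      · simp

lemma line_cases (l : ℙ F (Fin 3 → F)) :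
    (∃ u t, l = line u t) ∨ (∃ c, l = vline c) ∨ l = iline := by
  induction l using Projectivization.ind with
  | h v hv =>
    by_cases h1 : v 1 = 0
    · by_cases h0 : v 0 = 0
      · right; right
        have h2 : v 2 ≠ 0 := by
          intro h2
          apply hv
          ext i
          fin_cases i
          · exact h0
          · exact h1
          · exact h2
        rw [iline, mk_eq_mk_iff']
        refine ⟨v 2, ?_⟩
        ext i
        fin_cases i
        · simp [h0]
        · simp [h1]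
        · simp
      · right; left
        refine ⟨v 2 / v 0, ?_⟩
        rw [vline, mk_eq_mk_iff']
        refine ⟨v 0, ?_⟩
        ext i
        fin_cases i
        · simp
        · simp [h1]
        · simp [mul_div_cancel₀ _ h0]
    · left
      refine ⟨v 0 / v 1, v 2 / v 1, ?_⟩
      rw [line, mk_eq_mk_iff']
      refine ⟨v 1, ?_⟩
      ext i
      fin_cases i
      · simp [mul_div_cancel₀ _ h1]
      · simp
      · simp [mul_div_cancel₀ _ h1]

lemma line_inj {u t u' t' : F} (h : line u t = line u' t') : u = u' ∧ t = t' := by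
  rw [line, line, mk_eq_mk_iff'] at h
  obtain ⟨a, ha⟩ := h
  have h0 := congrFun ha 0
  have h1 := congrFun ha 1
  have h2 := congrFun ha 2
  simp at h0 h1 h2
  subst h1
  simp at h0 h2
  exact ⟨h0.symm, h2.symm⟩

lemma pt_inj {x y x' y' : F} (h : pt x y = pt x' y') : x = x' ∧ y = y' := by
  rw [pt, pt, mk_eq_mk_iff'] at h
  obtain ⟨a, ha⟩ := h
  have h0 := congrFun ha 0
  have h1 := congrFun ha 1
  have h2 := congrFun ha 2
  simp at h0 h1 h2
  subst h2
  simp at h0 h1
  exact ⟨h0.symm, h1.symm⟩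

lemma ipt_inj {s s' : F} (h : ipt s = ipt s') : s = s' := by
  rw [ipt, ipt, mk_eq_mk_iff'] at h
  obtain ⟨a, ha⟩ := h
  have h0 := congrFun ha 0
  have h1 := congrFun ha 1
  simp at h0 h1
  subst h0
  simp at h1
  exact h1.symm

end plane

/-! ### The `k`-dominating independent sets -/

section construction

variable {F : Type} [Field F] [Algebra (ZMod 2) F]

lemma charTwo : CharP F 2 := charP_of_injective_algebraMap (algebraMap (ZMod 2) F).injective 2

/-- The additive map `u ↦ u² a + u b`. -/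
def quad (a b : F) : F →ₗ[ZMod 2] F := AddMonoidHom.toZModLinearMap 2
  { toFun := fun u => u ^ 2 * a + u * b
    map_zero' := by simp
    map_add' := by
      intro u v
      have := charTwo (F := F)
      rw [CharTwo.add_sq]
      ring }

lemma quad_apply (a b u : F) : quad a b u = u ^ 2 * a + u * b := rfl

/-- The lines of the dominating set. -/
def Ls (φ : F →ₗ[ZMod 2] ZMod 2) (U : Submodule (ZMod 2) F) : Set (ℙ F (Fin 3 → F)) :=
  {l | ∃ u ∈ U, ∃ t, φ (u * t) ≠ 0 ∧ l = line u t}

/-- The points of the dominating set. -/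
def Ps (φ : F →ₗ[ZMod 2] ZMod 2) (U : Submodule (ZMod 2) F) : Set (ℙ F (Fin 3 → F)) :=
  {p | ∀ l ∈ Ls φ U, p ∉ l}

/-- The dominating set. -/
def DS (φ : F →ₗ[ZMod 2] ZMod 2) (U : Submodule (ZMod 2) F) :
    Set (ℙ F (Fin 3 → F) ⊕ ℙ F (Fin 3 → F)) :=
  Sum.inl '' Ps φ U ∪ Sum.inr '' Ls φ U

variable [Finite F]

lemma card_of_finrank (U : Submodule (ZMod 2) F) {m : ℕ} (hU : Module.finrank (ZMod 2) U = m) :
    Nat.card U = 2 ^ m := by
  rw [Module.natCard_eq_pow_finrank (K := ZMod 2) (V := U), Nat.card_zmod, hU]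

lemma many_lines {φ : F →ₗ[ZMod 2] ZMod 2} {U : Submodule (ZMod 2) F} {m : ℕ} (hm : 1 ≤ m)
    (hU : Module.finrank (ZMod 2) U = m) (hF : Module.finrank (ZMod 2) F = 2 * m)
    (p : ℙ F (Fin 3 → F)) (hp : p ∉ Ps φ U) :
    2 ^ (m - 1) ≤ {l | l ∈ Ls φ U ∧ p ∈ l}.ncard := by
  have := charTwo (F := F)
  have hp' : ∃ l ∈ Ls φ U, p ∈ l := by
    unfold Ps at hp
    simp only [Set.mem_ofPred_eq] at hp
    push Not at hp
    exact hp
  obtain ⟨_, ⟨u, hu, t, ht, rfl⟩, hpl⟩ := hp'
  have hpow : 2 ^ m = 2 * 2 ^ (m - 1) := by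
    rw [← pow_succ']; congr 1; omega
  rcases point_cases p with ⟨x, y, rfl⟩ | ⟨s, rfl⟩ | rfl
  · rw [pt_mem_line] at hpl
    set ψ : U →ₗ[ZMod 2] ZMod 2 := φ ∘ₗ quad x y ∘ₗ U.subtype with hψ
    have hψ_apply : ∀ v : U, ψ v = φ ((v : F) ^ 2 * x + v * y) := fun v => rfl
    have hψ0 : ψ ≠ 0 := by
      intro h0
      have h1 := LinearMap.congr_fun h0 ⟨u, hu⟩
      rw [hψ_apply] at h1
      apply ht
      have : u * t = u ^ 2 * x + u * y := by
        have h2 : t = -(x * u + y) := by linear_combination hpl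
        rw [h2, CharTwo.neg_eq]
        ring
      rw [this]
      exact h1
    have hc := card_ne_zero ψ hψ0
    rw [card_of_finrank U hU, hpow] at hc
    have hc' : {v : U | ψ v ≠ 0}.ncard = 2 ^ (m - 1) := by omega
    rw [← hc']
    apply Set.ncard_le_ncard_of_injOn (fun v : U => line (v : F) (x * v + y))
    · intro v hv
      refine ⟨⟨v, v.2, _, ?_, rfl⟩, ?_⟩
      · have h3 : (v : F) * (x * v + y) = (v : F) ^ 2 * x + v * y := by ring
        rw [h3, ← hψ_apply]
        exact hv
      · rw [pt_mem_line]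
        have h4 : x * (v : F) + y + (x * v + y) = (x * v + y) + (x * v + y) := by ring
        rw [h4, CharTwo.add_self_eq_zero]
    · intro v _ w _ hvw
      exact Subtype.ext (line_inj hvw).1
  · rw [ipt_mem_line] at hpl
    have hsu : s = u := by
      have : s = -u := by linear_combination hpl
      rw [this, CharTwo.neg_eq]
    subst hsu
    set ψ : F →ₗ[ZMod 2] ZMod 2 := pairing φ s with hψ
    have hψ0 : ψ ≠ 0 := by
      intro h0
      have h1 := LinearMap.congr_fun h0 t
      rw [hψ, pairing_apply, mul_comm] at h1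
      exact ht h1
    have hc := card_ne_zero ψ hψ0
    have hcF : Nat.card F = 2 ^ (2 * m) := by
      rw [Module.natCard_eq_pow_finrank (K := ZMod 2) (V := F), Nat.card_zmod, hF]
    have hpow2 : 2 ^ (2 * m) = 2 * 2 ^ (2 * m - 1) := by
      rw [← pow_succ']; congr 1; omega
    rw [hcF, hpow2] at hc
    have hc' : {v : F | ψ v ≠ 0}.ncard = 2 ^ (2 * m - 1) := by omega
    have hle : 2 ^ (m - 1) ≤ 2 ^ (2 * m - 1) := Nat.pow_le_pow_right (by norm_num) (by omega)
    refine hle.trans ?_
    rw [← hc']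
    apply Set.ncard_le_ncard_of_injOn (fun v : F => line s v)
    · intro v hv
      refine ⟨⟨s, hu, v, ?_, rfl⟩, ?_⟩
      · rw [mul_comm]
        exact hv
      · rw [ipt_mem_line, CharTwo.add_self_eq_zero]
    · intro v _ w _ hvw
      exact (line_inj hvw).2
  · exact absurd hpl (vpt_notMem_line u t)

lemma many_points {φ : F →ₗ[ZMod 2] ZMod 2} (hφ : φ ≠ 0) {U : Submodule (ZMod 2) F} {m : ℕ}
    (hm : 1 ≤ m) (hU : Module.finrank (ZMod 2) U = m) (hF : Module.finrank (ZMod 2) F = 2 * m)
    (l : ℙ F (Fin 3 → F)) (hl : l ∉ Ls φ U) :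
    2 ^ (m - 1) ≤ {p | p ∈ Ps φ U ∧ p ∈ l}.ncard := by
  have := charTwo (F := F)
  have hle : 2 ^ (m - 1) ≤ 2 ^ (Module.finrank (ZMod 2) F - Module.finrank (ZMod 2) U) := by
    rw [hU, hF]
    exact Nat.pow_le_pow_right (by norm_num) (by omega)
  rcases line_cases l with ⟨u, t, rfl⟩ | ⟨c, rfl⟩ | rfl
  · refine hle.trans ((card_solutions φ hφ U (quad 1 u ∘ₗ U.subtype)
      (φ ∘ₗ quad 0 t ∘ₗ U.subtype) ?_).trans ?_)
    · intro v hv
      rw [LinearMap.mem_ker] at hv ⊢
      have hv' : (v : F) ^ 2 * 1 + v * u = 0 := hv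
      change φ ((v : F) ^ 2 * 0 + v * t) = 0
      have h1 : (v : F) * (v + u) = 0 := by linear_combination hv'
      rcases mul_eq_zero.1 h1 with h2 | h2
      · rw [h2]
        simp
      · have h3 : (v : F) = u := by
          have : (v : F) = -u := by linear_combination h2
          rw [this, CharTwo.neg_eq]
        by_contra h4
        apply hl
        refine ⟨u, h3 ▸ v.2, t, ?_, rfl⟩
        rw [h3, mul_zero, zero_add] at h4
        exact h4
    · apply Set.ncard_le_ncard_of_injOn (fun x : F => pt x (u * x + t))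
      · intro x hx
        refine ⟨?_, ?_⟩
        · rintro _ ⟨v, hv, t', ht', rfl⟩ hmem
          rw [pt_mem_line] at hmem
          apply ht'
          have h5 : t' = -(x * v + (u * x + t)) := by linear_combination hmem
          rw [CharTwo.neg_eq] at h5
          have h6 : v * t' = (v ^ 2 * 1 + v * u) * x + v * t := by
            rw [h5]; ring
          have h7 : φ ((v ^ 2 * 1 + v * u) * x) = φ (v ^ 2 * 0 + v * t) := hx ⟨v, hv⟩
          rw [h6, map_add, h7, mul_zero, zero_add]
          exact CharTwo.add_self_eq_zero _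
        · rw [pt_mem_line]
          have h4 : x * u + (u * x + t) + t = (u * x + t) + (u * x + t) := by ring
          rw [h4, CharTwo.add_self_eq_zero]
      · intro x _ y _ hxy
        exact (pt_inj hxy).1
  · refine hle.trans ((card_solutions φ hφ U U.subtype (φ ∘ₗ quad c 0 ∘ₗ U.subtype) ?_).trans ?_)
    · intro v hv
      rw [LinearMap.mem_ker] at hv ⊢
      have hv' : v = 0 := Subtype.ext hv
      rw [hv', map_zero]
    · apply Set.ncard_le_ncard_of_injOn (fun y : F => pt c y)
      · intro y hy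
        refine ⟨?_, ?_⟩
        · rintro _ ⟨v, hv, t', ht', rfl⟩ hmem
          rw [pt_mem_line] at hmem
          apply ht'
          have h5 : t' = -(c * v + y) := by linear_combination hmem
          rw [CharTwo.neg_eq] at h5
          have h6 : v * t' = v ^ 2 * c + v * y := by
            rw [h5]; ring
          have h7 : φ (v * y) = φ (v ^ 2 * c + v * 0) := hy ⟨v, hv⟩
          rw [h6, map_add, h7, mul_zero, add_zero]
          exact CharTwo.add_self_eq_zero _
        · rw [pt_mem_vline, CharTwo.add_self_eq_zero]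
      · intro x _ y _ hxy
        exact (pt_inj hxy).2
  · have h1 : (U : Set F)ᶜ.ncard = 2 ^ (2 * m) - 2 ^ m := by
      rw [Set.ncard_compl, Module.natCard_eq_pow_finrank (K := ZMod 2) (V := F), Nat.card_zmod, hF]
      congr 1
      exact card_of_finrank U hU
    have h2 : 2 ^ (m - 1) ≤ 2 ^ (2 * m) - 2 ^ m := by
      have h3 : 2 ^ (2 * m) = 2 ^ m * 2 ^ m := by rw [← pow_add]; congr 1; omega
      have h4 : 2 ^ m = 2 * 2 ^ (m - 1) := by rw [← pow_succ']; congr 1; omega
      have h5 : 1 ≤ 2 ^ (m - 1) := Nat.one_le_two_pow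
      rw [h3, h4]
      generalize 2 ^ (m - 1) = z at h5
      apply Nat.le_sub_of_add_le
      nlinarith
    refine h2.trans ?_
    rw [← h1]
    apply Set.ncard_le_ncard_of_injOn (fun s : F => ipt s)
    · intro s hs
      refine ⟨?_, ipt_mem_iline s⟩
      rintro _ ⟨v, hv, t', ht', rfl⟩ hmem
      rw [ipt_mem_line] at hmem
      apply hs
      have : s = -v := by linear_combination hmem
      rw [this, CharTwo.neg_eq]
      exact hv
    · intro x _ y _ hxy
      exact ipt_inj hxy

lemma isKDIS {φ : F →ₗ[ZMod 2] ZMod 2} (hφ : φ ≠ 0) {U : Submodule (ZMod 2) F} {m k : ℕ}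
    (hm : 1 ≤ m) (hU : Module.finrank (ZMod 2) U = m) (hF : Module.finrank (ZMod 2) F = 2 * m)
    (hk : k ≤ 2 ^ (m - 1)) :
    IsKDIS (incGraph (ℙ F (Fin 3 → F)) (ℙ F (Fin 3 → F))) k (DS φ U) := by
  constructor
  · rintro (p | l) hv
    · have hp : p ∉ Ps φ U := fun h => hv (Or.inl ⟨p, h, rfl⟩)
      have h1 := many_lines hm hU hF p hp
      have h2 : (incGraph (ℙ F (Fin 3 → F)) (ℙ F (Fin 3 → F))).neighborSet (Sum.inl p) ∩ DS φ U =
          Sum.inr '' {l | l ∈ Ls φ U ∧ p ∈ l} := by
        ext w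
        constructor
        · rintro ⟨hw1, ⟨p', hp', rfl⟩ | ⟨l, hl, rfl⟩⟩
          · exact hw1.elim
          · exact ⟨l, ⟨hl, hw1⟩, rfl⟩
        · rintro ⟨l, ⟨hl, hpl⟩, rfl⟩
          exact ⟨hpl, Or.inr ⟨l, hl, rfl⟩⟩
      rw [h2, Set.ncard_image_of_injective _ Sum.inr_injective]
      exact hk.trans h1
    · have hl : l ∉ Ls φ U := fun h => hv (Or.inr ⟨l, h, rfl⟩)
      have h1 := many_points hφ hm hU hF l hl
      have h2 : (incGraph (ℙ F (Fin 3 → F)) (ℙ F (Fin 3 → F))).neighborSet (Sum.inr l) ∩ DS φ U =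
          Sum.inl '' {p | p ∈ Ps φ U ∧ p ∈ l} := by
        ext w
        constructor
        · rintro ⟨hw1, ⟨p', hp', rfl⟩ | ⟨l', hl', rfl⟩⟩
          · exact ⟨p', ⟨hp', hw1⟩, rfl⟩
          · exact hw1.elim
        · rintro ⟨p, ⟨hp, hpl⟩, rfl⟩
          exact ⟨hpl, Or.inl ⟨p, hp, rfl⟩⟩
      rw [h2, Set.ncard_image_of_injective _ Sum.inl_injective]
      exact hk.trans h1
  · rintro _ (⟨p, hp, rfl⟩ | ⟨l, hl, rfl⟩) _ (⟨p', hp', rfl⟩ | ⟨l', hl', rfl⟩) hadj
    · exact hadj
    · exact hp l' hl' hadj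
    · exact hp' l hl hadj
    · exact hadj

omit [Finite F] in
lemma le_of_DS_eq {φ : F →ₗ[ZMod 2] ZMod 2} (hφ : φ ≠ 0) {U U' : Submodule (ZMod 2) F}
    (h : DS φ U = DS φ U') : U ≤ U' := by
  intro u hu
  by_cases hu0 : u = 0
  · rw [hu0]
    exact U'.zero_mem
  obtain ⟨t, ht⟩ : ∃ t, φ (u * t) ≠ 0 := by
    by_contra hcon
    push Not at hcon
    apply hφ
    ext x
    have := hcon (u⁻¹ * x)
    rw [← mul_assoc, mul_inv_cancel₀ hu0, one_mul] at this
    exact this
  have h1 : Sum.inr (line u t) ∈ DS φ U := Or.inr ⟨_, ⟨u, hu, t, ht, rfl⟩, rfl⟩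
  rw [h] at h1
  rcases h1 with ⟨p, _, hp⟩ | ⟨l, ⟨u', hu', t', _, rfl⟩, hl⟩
  · exact absurd hp (by simp)
  · have h2 := line_inj (Sum.inr_injective hl)
    rw [← h2.1]
    exact hu'

/-- The number of `k`-DISes of the incidence graph of `PG(2, q)`, `q = 4^m`. -/
lemma le_numKDIS {m k : ℕ} (hm : 1 ≤ m) (hF : Module.finrank (ZMod 2) F = 2 * m)
    (hk : k ≤ 2 ^ (m - 1)) :
    2 ^ (m * m) ≤ numKDIS (incGraph (ℙ F (Fin 3 → F)) (ℙ F (Fin 3 → F))) k := by
  classical
  obtain ⟨φ, hφ⟩ : ∃ φ : F →ₗ[ZMod 2] ZMod 2, φ ≠ 0 := by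
    have h1 : 0 < Module.finrank (ZMod 2) (F →ₗ[ZMod 2] ZMod 2) := by
      rw [Subspace.dual_finrank_eq, hF]
      omega
    have := Module.nontrivial_of_finrank_pos h1
    exact exists_ne 0
  have hfr : Module.finrank (ZMod 2) F =
      Module.finrank (ZMod 2) ((Fin m → ZMod 2) × (Fin m → ZMod 2)) := by
    rw [hF, Module.finrank_prod, Module.finrank_fin_fun]
    omega
  let e : F ≃ₗ[ZMod 2] ((Fin m → ZMod 2) × (Fin m → ZMod 2)) := LinearEquiv.ofFinrankEq _ _ hfr
  let S : Matrix (Fin m) (Fin m) (ZMod 2) → Submodule (ZMod 2) F := fun T =>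
    (LinearMap.graph T.toLin').comap (e : F →ₗ[ZMod 2] ((Fin m → ZMod 2) × (Fin m → ZMod 2)))
  have hS : ∀ T, Module.finrank (ZMod 2) (S T) = m := by
    intro T
    have h1 : Module.finrank (ZMod 2) (LinearMap.graph T.toLin') = m := by
      rw [LinearMap.graph_eq_range_prod, LinearMap.finrank_range_of_inj, Module.finrank_fin_fun]
      intro x y hxy
      exact congrArg Prod.fst hxy
    have h2 : S T = (LinearMap.graph T.toLin').map
        (e.symm : ((Fin m → ZMod 2) × (Fin m → ZMod 2)) →ₗ[ZMod 2] F) :=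
      Submodule.comap_equiv_eq_map_symm e _
    rw [h2, LinearEquiv.finrank_map_eq, h1]
  have hSinj : Function.Injective S := by
    intro T T' h
    apply Matrix.toLin'.injective
    ext1 x
    ext1
    have hx : e.symm ((LinearMap.single (ZMod 2) (fun _ => ZMod 2) x) 1,
        T.toLin' ((LinearMap.single (ZMod 2) (fun _ => ZMod 2) x) 1)) ∈ S T := by
      simp only [S, Submodule.mem_comap, LinearEquiv.coe_coe, LinearEquiv.apply_symm_apply,
        LinearMap.mem_graph_iff]
    rw [h] at hx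
    simp only [S, Submodule.mem_comap, LinearEquiv.coe_coe, LinearEquiv.apply_symm_apply,
        LinearMap.mem_graph_iff] at hx
    exact hx
  have hcard : 2 ^ (m * m) = (Set.univ : Set (Matrix (Fin m) (Fin m) (ZMod 2))).ncard := by
    rw [Set.ncard_univ]
    change _ = Nat.card (Fin m → Fin m → ZMod 2)
    rw [Nat.card_fun, Nat.card_fun, Nat.card_zmod, Nat.card_fin, ← pow_mul]
  rw [hcard]
  apply Set.ncard_le_ncard_of_injOn (fun T => DS φ (S T))
  · intro T _
    exact isKDIS hφ hm (hS T) hF hk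
  · intro T _ T' _ h
    apply hSinj
    exact le_antisymm (le_of_DS_eq hφ h) (le_of_DS_eq hφ h.symm)

end construction

lemma numKDIS_le {V : Type} [Finite V] (G : SimpleGraph V) (k : ℕ) :
    numKDIS G k ≤ 2 ^ Nat.card V := by
  have h1 : numKDIS G k ≤ Nat.card (Set V) := by
    unfold numKDIS
    rw [← Set.ncard_univ]
    exact Set.ncard_le_ncard (Set.subset_univ _)
  have h2 : Nat.card (Set V) = 2 ^ Nat.card V := by
    have := Fintype.ofFinite V
    rw [Nat.card_eq_fintype_card, Fintype.card_set, Nat.card_eq_fintype_card]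
  rwa [h2] at h1

lemma numKDIS_le_mi {P L : Type} [Finite P] [Finite L] [Membership P L]
    [h : Configuration.ProjectivePlane P L] (k : ℕ) :
    numKDIS (incGraph P L) k ≤ mi k (Nat.card (P ⊕ L)) := by
  apply le_csSup
  · refine ⟨2 ^ Nat.card (P ⊕ L), ?_⟩
    rintro N ⟨P', L', _, _, _, _, hcard, rfl⟩
    rw [← hcard]
    exact numKDIS_le _ _
  · exact ⟨P, L, inferInstance, inferInstance, inferInstance, h, rfl, rfl⟩

/-- For every `k ≥ 1` the function `mi_k(n, F)` is not bounded by a polynomial in `n`. -/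
theorem result (k : ℕ) (_hk : 1 ≤ k) :
    ¬ ∃ C c : ℝ, 0 < C ∧ 0 < c ∧ ∀ n, IsVertexCount n → (mi k n : ℝ) ≤ C * (n : ℝ) ^ c := by
  classical
  rintro ⟨C, c, hC, hc, hbound⟩
  obtain ⟨d, hd⟩ := exists_nat_ge c
  obtain ⟨j, hj⟩ := pow_unbounded_of_one_lt C (one_lt_two)
  set m := 7 * d + j + k + 1 with hm
  have hm1 : 1 ≤ m := by omega
  let F := GaloisField 2 (2 * m)
  have hF : Module.finrank (ZMod 2) F = 2 * m := GaloisField.finrank 2 (by omega)
  have hFfin : Finite F := Module.finite_of_finite (ZMod 2)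
  have hkm : k ≤ 2 ^ (m - 1) := by
    have h1 : k < 2 ^ k := Nat.lt_two_pow_self
    have h2 : 2 ^ k ≤ 2 ^ (m - 1) := Nat.pow_le_pow_right (by norm_num) (by omega)
    omega
  have h1 := le_numKDIS (F := F) hm1 hF hkm
  have h2 := numKDIS_le_mi (P := ℙ F (Fin 3 → F)) (L := ℙ F (Fin 3 → F)) k
  set N := Nat.card (ℙ F (Fin 3 → F) ⊕ ℙ F (Fin 3 → F)) with hN
  have hNle : N ≤ 2 ^ (7 * m) := by
    have h3 : Nat.card (ℙ F (Fin 3 → F)) ≤ Nat.card (Fin 3 → F) := by
      have e1 : Nat.card (ℙ F (Fin 3 → F)) ≤ Nat.card {v : Fin 3 → F // v ≠ 0} :=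
        Nat.card_le_card_of_surjective (Projectivization.mk' F) Quotient.mk''_surjective
      exact e1.trans (Finite.card_subtype_le _)
    have h4 : Nat.card (Fin 3 → F) = 2 ^ (6 * m) := by
      rw [Nat.card_fun, Module.natCard_eq_pow_finrank (K := ZMod 2) (V := F), Nat.card_zmod, hF,
        Nat.card_fin, ← pow_mul]
      congr 1
      ring
    have h5 : N = Nat.card (ℙ F (Fin 3 → F)) + Nat.card (ℙ F (Fin 3 → F)) := Nat.card_sum
    have h6 : 2 ^ (6 * m) + 2 ^ (6 * m) = 2 ^ (6 * m + 1) := by ring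
    have h7 : 2 ^ (6 * m + 1) ≤ 2 ^ (7 * m) := Nat.pow_le_pow_right (by norm_num) (by omega)
    omega
  have hv : IsVertexCount N :=
    ⟨ℙ F (Fin 3 → F), ℙ F (Fin 3 → F), inferInstance, inferInstance, inferInstance,
      inferInstance, rfl⟩
  have h3 := hbound N hv
  have h4 : ((2 ^ (m * m) : ℕ) : ℝ) ≤ C * (N : ℝ) ^ c := by
    refine le_trans ?_ h3
    exact_mod_cast h1.trans h2
  have h5 : (N : ℝ) ^ c ≤ (2 : ℝ) ^ (7 * m * d) := by
    have e1 : (N : ℝ) ≤ (2 : ℝ) ^ (7 * m) := by exact_mod_cast hNle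
    calc (N : ℝ) ^ c ≤ ((2 : ℝ) ^ (7 * m)) ^ c :=
          Real.rpow_le_rpow (Nat.cast_nonneg _) e1 hc.le
      _ ≤ ((2 : ℝ) ^ (7 * m)) ^ (d : ℝ) :=
          Real.rpow_le_rpow_of_exponent_le (one_le_pow₀ (by norm_num)) hd
      _ = (2 : ℝ) ^ (7 * m * d) := by rw [Real.rpow_natCast, ← pow_mul]
  have h6 : C * (N : ℝ) ^ c < (2 : ℝ) ^ (m * m) := by
    calc C * (N : ℝ) ^ c ≤ C * (2 : ℝ) ^ (7 * m * d) := mul_le_mul_of_nonneg_left h5 hC.le
      _ < (2 : ℝ) ^ j * (2 : ℝ) ^ (7 * m * d) := mul_lt_mul_of_pos_right hj (by positivity)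
      _ = (2 : ℝ) ^ (j + 7 * m * d) := by rw [← pow_add]
      _ ≤ (2 : ℝ) ^ (m * m) := by
          apply pow_le_pow_right₀ (by norm_num)
          have e2 : m * m = 7 * m * d + m * (j + k + 1) := by
            conv_lhs => rw [show m * m = m * (7 * d + (j + k + 1)) by rw [hm]; ring]
            ring
          have e3 : j ≤ m * (j + k + 1) := by nlinarith
          omega
  push_cast at h4
  linarith

end Pool.Agent.Results.MP_a51b5f_co.Superpolynomial
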